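import Mathlib

/-!
# The major index of the 123-avoiding linear extensions of `NE_{s,2}`

Permutations and words are lists (one-line notation).  The linear extensions of `NE_{s,2}` are the
shuffles of `2s, 2s-2, ..., 2` and `2s-1, 2s-3, ..., 1` with a ballot condition; none of them
contains `123`.  Their ascents are the peaks of height at least two of a Dyck path, and the
generating functions by the positions of the high peaks and by the positions of the valleys
satisfy the same recurrence.
-/

set_option autoImplicit false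

namespace Pool.Agent.Results.MP_1fed52_co.MajorIndex

open Polynomial

/-- sum of the positions `k, k+1, ...` of the descents of a list whose first letter has
position `k` -/
def majFrom : ℕ → List ℕ → ℕ
  | _, [] => 0
  | _, [_] => 0
  | k, x :: y :: l => (if y < x then k else 0) + majFrom (k + 1) (y :: l)

/-- the major index: the sum of the `i ≥ 1` with `w_i > w_{i+1}` -/
def maj (l : List ℕ) : ℕ := majFrom 1 l

/-- the order of `NE_{s,t}` on the numbers `m = (i-1) t + j`, `1 ≤ i`, `1 ≤ j ≤ t`:
`i - 1 = (m - 1) / t` and `j - 1 = (m - 1) % t` -/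
def Below (t x y : ℕ) : Prop := (y - 1) / t ≤ (x - 1) / t ∧ (y - 1) % t ≤ (x - 1) % t

/-- the list `l` (one-line notation) is a permutation of `1, ..., s t`, whenever
`l_a` is below `l_b` for `a ≠ b` we have `a < b`, and there are no `a < b < c` with
`l_a < l_b < l_c` -/
def IsNE123 (s t : ℕ) (l : List ℕ) : Prop :=
  l.Perm (List.range' 1 (s * t)) ∧
  (∀ a b : Fin l.length, a ≠ b → Below t (l.get a) (l.get b) → a < b) ∧
  (∀ a b c : Fin l.length, a < b → b < c → ¬ (l.get a < l.get b ∧ l.get b < l.get c))

open Classical in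
/-- `NE_{s,t}(123)[q]` -/
noncomputable def NE (s t : ℕ) : ℤ[X] :=
  ∑ l ∈ (List.range' 1 (s * t)).permutations.toFinset.filter (IsNE123 s t), X ^ maj l

/-- words with `n` letters 1 and `n` letters 2, every prefix of which has at least as many
letters 1 as letters 2 -/
def IsCatalan (n : ℕ) (l : List ℕ) : Prop :=
  l.Perm (List.replicate n 1 ++ List.replicate n 2) ∧
  ∀ k : ℕ, (l.take k).count 2 ≤ (l.take k).count 1

open Classical in
/-- `c_n(q)` -/
noncomputable def catQ (n : ℕ) : ℤ[X] :=
  ∑ l ∈ (List.replicate n 1 ++ List.replicate n 2).permutations.toFinset.filter (IsCatalan n),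
    X ^ maj l

/-! ## major index of extended lists -/

theorem majFrom_snoc (x y : ℕ) (u : List ℕ) : ∀ k,
    majFrom k (u ++ [y, x]) = majFrom k (u ++ [y]) + (if x < y then k + u.length else 0) := by
  induction u with
  | nil => intro k; simp [majFrom]
  | cons a u ih =>
    intro k
    cases u with
    | nil =>
      simp only [List.cons_append, List.nil_append, majFrom, List.length_cons, List.length_nil]
      split_ifs <;> omega
    | cons b u =>
      have h := ih (k + 1)
      simp only [List.cons_append, majFrom, List.length_cons] at h ⊢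
      rw [h]
      split_ifs <;> omega

theorem maj_snoc (x y : ℕ) (u : List ℕ) :
    maj (u ++ [y] ++ [x]) = maj (u ++ [y]) + (if x < y then u.length + 1 else 0) := by
  have h := majFrom_snoc x y u 1
  simp only [maj, List.append_assoc, List.cons_append, List.nil_append] at h ⊢
  rw [h]
  split_ifs <;> omega

/-! ## ballot words -/

/-- ballot words with `b + d` letters 1 and `b` letters 2 -/
def W : ℕ → ℕ → Finset (List ℕ)
  | 0, 0 => {[]}
  | 0, d + 1 => (W 0 d).image (· ++ [1])
  | b + 1, 0 => (W b 1).image (· ++ [2])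
  | b + 1, d + 1 => (W (b + 1) d).image (· ++ [1]) ∪ (W b (d + 2)).image (· ++ [2])
termination_by b d => (b, d)

theorem mem_W : ∀ b d : ℕ, ∀ l : List ℕ, l ∈ W b d ↔
    (l.count 1 = b + d ∧ l.count 2 = b ∧ (∀ x ∈ l, x = 1 ∨ x = 2) ∧
      ∀ k, (l.take k).count 2 ≤ (l.take k).count 1) := by
  have key : ∀ (l : List ℕ) (x : ℕ), (∀ k, ((l ++ [x]).take k).count 2 ≤
      ((l ++ [x]).take k).count 1) ↔ ((∀ k, (l.take k).count 2 ≤ (l.take k).count 1) ∧
        (l ++ [x]).count 2 ≤ (l ++ [x]).count 1) := by
    intro l x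
    constructor
    · intro h
      refine ⟨fun k => ?_, ?_⟩
      · rcases le_total k l.length with hk | hk
        · have := h k
          rwa [List.take_append_of_le_length hk] at this
        · have := h l.length
          rw [List.take_append_of_le_length le_rfl, List.take_length] at this
          rwa [List.take_of_length_le hk]
      · have := h (l ++ [x]).length
        rwa [List.take_length] at this
    · rintro ⟨h, h'⟩ k
      rcases le_or_gt k l.length with hk | hk
      · rw [List.take_append_of_le_length hk]; exact h k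
      · rw [List.take_of_length_le (by simp; omega)]; exact h'
  intro b
  induction b with
  | zero =>
    intro d
    induction d with
    | zero =>
      intro l
      rw [W]
      simp only [Finset.mem_singleton]
      constructor
      · rintro rfl; simp
      · rintro ⟨h1, h2, h3, -⟩
        cases l with
        | nil => rfl
        | cons a l =>
          rcases h3 a (by simp) with rfl | rfl <;> simp at h1 h2
    | succ d ih =>
      intro l
      rw [W]
      simp only [Finset.mem_image]
      constructor
      · rintro ⟨u, hu, rfl⟩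
        obtain ⟨h1, h2, h3, h4⟩ := (ih u).1 hu
        refine ⟨by simp [h1], by simp [h2], ?_, ?_⟩
        · intro x hx
          rcases List.mem_append.1 hx with hx | hx
          · exact h3 x hx
          · left; simpa using hx
        · rw [key]
          exact ⟨h4, by simp [h1, h2]⟩
      · rintro ⟨h1, h2, h3, h4⟩
        rcases List.eq_nil_or_concat l with rfl | ⟨u, x, rfl⟩
        · simp at h1
        · rw [List.concat_eq_append] at h1 h2 h3 h4 ⊢
          rcases h3 x (by simp) with rfl | rfl
          · refine ⟨u, (ih u).2 ⟨?_, ?_, fun y hy => h3 y (by simp [hy]), ((key u 1).1 h4).1⟩, rfl⟩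
            · simp at h1; omega
            · simpa using h2
          · simp at h2
  | succ b ihb =>
    intro d
    induction d with
    | zero =>
      intro l
      rw [W]
      simp only [Finset.mem_image]
      constructor
      · rintro ⟨u, hu, rfl⟩
        obtain ⟨h1, h2, h3, h4⟩ := (ihb 1 u).1 hu
        refine ⟨by simp [h1], by simp [h2], ?_, ?_⟩
        · intro x hx
          rcases List.mem_append.1 hx with hx | hx
          · exact h3 x hx
          · right; simpa using hx
        · rw [key]
          exact ⟨h4, by simp [h1, h2]⟩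
      · rintro ⟨h1, h2, h3, h4⟩
        rcases List.eq_nil_or_concat l with rfl | ⟨u, x, rfl⟩
        · simp at h1
        · rw [List.concat_eq_append] at h1 h2 h3 h4 ⊢
          have hb := (key u x).1 h4
          rcases h3 x (by simp) with rfl | rfl
          · exfalso
            have := hb.1 u.length
            rw [List.take_length] at this
            simp at h1 h2
            omega
          · refine ⟨u, (ihb 1 u).2 ⟨?_, ?_, fun y hy => h3 y (by simp [hy]), hb.1⟩, rfl⟩
            · simp at h1; omega
            · simp at h2; omega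
    | succ d ih =>
      intro l
      rw [W]
      simp only [Finset.mem_union, Finset.mem_image]
      constructor
      · rintro (⟨u, hu, rfl⟩ | ⟨u, hu, rfl⟩)
        · obtain ⟨h1, h2, h3, h4⟩ := (ih u).1 hu
          refine ⟨by simp [h1, Nat.add_assoc], by simp [h2], ?_, ?_⟩
          · intro x hx
            rcases List.mem_append.1 hx with hx | hx
            · exact h3 x hx
            · left; simpa using hx
          · rw [key]
            refine ⟨h4, ?_⟩
            simp [h1, h2]; omega
        · obtain ⟨h1, h2, h3, h4⟩ := (ihb (d + 2) u).1 hu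
          refine ⟨by rw [List.count_append, h1]; simp; omega, by simp [h2], ?_, ?_⟩
          · intro x hx
            rcases List.mem_append.1 hx with hx | hx
            · exact h3 x hx
            · right; simpa using hx
          · rw [key]
            refine ⟨h4, ?_⟩
            simp [h1, h2]
      · rintro ⟨h1, h2, h3, h4⟩
        rcases List.eq_nil_or_concat l with rfl | ⟨u, x, rfl⟩
        · simp at h1
        · rw [List.concat_eq_append] at h1 h2 h3 h4 ⊢
          have hb := (key u x).1 h4
          rcases h3 x (by simp) with rfl | rfl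
          · left
            refine ⟨u, (ih u).2 ⟨?_, ?_, fun y hy => h3 y (by simp [hy]), hb.1⟩, rfl⟩
            · simp at h1; omega
            · simpa using h2
          · right
            refine ⟨u, (ihb (d + 2) u).2 ⟨?_, ?_, fun y hy => h3 y (by simp [hy]), hb.1⟩, rfl⟩
            · simp at h1; omega
            · simp at h2; omega

theorem snoc_inj (x : ℕ) : Function.Injective (fun l : List ℕ => l ++ [x]) := by
  intro a b h
  simpa using h

theorem sum_W_zero {R : Type} [AddCommMonoid R] (d : ℕ) (f : List ℕ → R) :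
    ∑ l ∈ W 0 (d + 1), f l = ∑ l ∈ W 0 d, f (l ++ [1]) := by
  rw [W, Finset.sum_image fun a _ b _ h => snoc_inj 1 h]

theorem sum_W_succ_zero {R : Type} [AddCommMonoid R] (b : ℕ) (f : List ℕ → R) :
    ∑ l ∈ W (b + 1) 0, f l = ∑ l ∈ W b 1, f (l ++ [2]) := by
  rw [W, Finset.sum_image fun a _ b _ h => snoc_inj 2 h]

theorem sum_W_succ {R : Type} [AddCommMonoid R] (b d : ℕ) (f : List ℕ → R) :
    ∑ l ∈ W (b + 1) (d + 1), f l =
      ∑ l ∈ W (b + 1) d, f (l ++ [1]) + ∑ l ∈ W b (d + 2), f (l ++ [2]) := by
  rw [W, Finset.sum_union, Finset.sum_image fun a _ b _ h => snoc_inj 1 h,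
    Finset.sum_image fun a _ b _ h => snoc_inj 2 h]
  rw [Finset.disjoint_left]
  intro l h1 h2
  obtain ⟨u, -, rfl⟩ := Finset.mem_image.1 h1
  obtain ⟨v, -, hv⟩ := Finset.mem_image.1 h2
  have := congrArg List.getLast? hv
  simp at this


/-! ## Gaussian binomials -/

/-- the Gaussian binomial `[a + b choose a]` -/
noncomputable def G : ℕ → ℕ → ℤ[X]
  | 0, _ => 1
  | _ + 1, 0 => 1
  | a + 1, b + 1 => G a (b + 1) + X ^ (a + 1) * G (a + 1) b

theorem G_zero_left (b : ℕ) : G 0 b = 1 := by rw [G]

theorem G_zero_right (a : ℕ) : G a 0 = 1 := by cases a <;> rw [G]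

theorem G_one (a b : ℕ) : G (a + 1) (b + 1) = G a (b + 1) + X ^ (a + 1) * G (a + 1) b := by rw [G]

theorem G_two : ∀ a b : ℕ, G (a + 1) (b + 1) = X ^ (b + 1) * G a (b + 1) + G (a + 1) b := by
  intro a
  induction a with
  | zero =>
    intro b
    induction b with
    | zero => rw [G_one, G_zero_left, G_zero_right]; ring
    | succ b ih =>
      rw [G_one, G_zero_left] at ih ⊢
      rw [G_one 0 b, G_zero_left]
      linear_combination (X : ℤ[X]) * ih
  | succ a iha =>
    intro b
    induction b with
    | zero =>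
      have h := iha 0
      rw [G_zero_right] at h
      rw [G_one, G_zero_right]
      have h1 := G_one a 0
      rw [G_zero_right] at h1
      linear_combination h - (X : ℤ[X]) * h1
    | succ b ih =>
      have h1 := iha (b + 1)
      have h2 := G_one a (b + 1)
      have h3 := G_one (a + 1) b
      have h4 := G_one (a + 1) (b + 1)
      linear_combination h4 + h1 + (X : ℤ[X]) ^ (a + 2) * ih - (X : ℤ[X]) ^ (b + 2) * h2 - h3

theorem G_abs_left (a b : ℕ) : ((X : ℤ[X]) ^ (a + 1) - 1) * G (a + 1) b =
    (X ^ (a + b + 1) - 1) * G a b := by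
  cases b with
  | zero => rw [G_zero_right, G_zero_right]
  | succ b =>
    have h1 := G_one a b
    have h2 := G_two a b
    linear_combination (X : ℤ[X]) ^ (a + 1) * h2 - h1

theorem G_abs_right (a b : ℕ) : ((X : ℤ[X]) ^ (b + 1) - 1) * G a (b + 1) =
    (X ^ (a + b + 1) - 1) * G a b := by
  cases a with
  | zero => rw [G_zero_left, G_zero_left, zero_add]
  | succ a =>
    have h1 := G_one a b
    have h2 := G_two a b
    linear_combination (X : ℤ[X]) ^ (b + 1) * h1 - h2

theorem G_rec (a b : ℕ) : G (a + 1) (b + 1) = G a (b + 1) + G (a + 1) b +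
    (X ^ (a + b + 1) - 1) * G a b := by
  have h1 := G_one a b
  have h2 := G_abs_left a b
  linear_combination h1 + h2

/-- the reflected term -/
noncomputable def H : ℕ → ℕ → ℤ[X]
  | _, 0 => 0
  | a, b + 1 => G (a + 1) b

/-! ## the generating function of the Catalan words -/

theorem len_of_mem {b d : ℕ} {l : List ℕ} (h : l ∈ W b d) : l.length = 2 * b + d := by
  obtain ⟨h1, h2, h3, -⟩ := (mem_W b d l).1 h
  have : ∀ l : List ℕ, (∀ x ∈ l, x = 1 ∨ x = 2) → l.length = l.count 1 + l.count 2 := by
    intro l
    induction l with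
    | nil => simp
    | cons x l ih =>
      intro h
      have := ih fun y hy => h y (by simp [hy])
      rcases h x (by simp) with rfl | rfl
      · rw [List.length_cons, this, List.count_cons_self, List.count_cons_of_ne (by decide)]; omega
      · rw [List.length_cons, this, List.count_cons_self, List.count_cons_of_ne (by decide)]; omega
  rw [this l h3, h1, h2]; omega

/-- sum of `q ^ maj` over ballot words -/
noncomputable def S (b d : ℕ) : ℤ[X] := ∑ l ∈ W b d, X ^ maj l

theorem maj_two {b d : ℕ} {l : List ℕ} (h : l ∈ W b d) : maj (l ++ [2]) = maj l := by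
  obtain ⟨-, -, h3, -⟩ := (mem_W b d l).1 h
  rcases List.eq_nil_or_concat l with rfl | ⟨u, x, rfl⟩
  · simp [maj, majFrom]
  · rw [List.concat_eq_append, maj_snoc, if_neg, Nat.add_zero]
    rcases h3 x (by simp) with rfl | rfl <;> omega

theorem maj_one_one (u : List ℕ) : maj (u ++ [1] ++ [1]) = maj (u ++ [1]) := by
  rw [maj_snoc]; simp

theorem maj_two_one (u : List ℕ) : maj (u ++ [2] ++ [1]) = maj (u ++ [2]) + (u.length + 1) := by
  rw [maj_snoc]; simp

theorem S_zero (d : ℕ) : S 0 d = 1 := by
  induction d with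
  | zero => simp [S, W, maj, majFrom]
  | succ d ih =>
    rw [S, sum_W_zero]
    rw [← ih, S]
    refine Finset.sum_congr rfl fun l hl => ?_
    obtain ⟨-, h2, h3, -⟩ := (mem_W 0 d l).1 hl
    rcases List.eq_nil_or_concat l with rfl | ⟨u, x, rfl⟩
    · simp [maj, majFrom]
    · rw [List.concat_eq_append] at *
      rcases h3 x (by simp) with rfl | rfl
      · rw [maj_one_one]
      · simp at h2

theorem S_step (b d : ℕ) : ∑ l ∈ W (b + 1) d, (X : ℤ[X]) ^ maj (l ++ [1]) =
    S (b + 1) d + (X ^ (2 * b + d + 2) - 1) * S b (d + 1) := by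
  cases d with
  | zero =>
    rw [S, sum_W_succ_zero, sum_W_succ_zero, S, Finset.mul_sum, ← Finset.sum_add_distrib]
    refine Finset.sum_congr rfl fun u hu => ?_
    rw [maj_two_one, maj_two hu, len_of_mem hu, pow_add]
    ring
  | succ d =>
    rw [S, sum_W_succ, sum_W_succ, S, Finset.mul_sum]
    have h1 : ∀ u ∈ W b (d + 2), (X : ℤ[X]) ^ maj (u ++ [2] ++ [1]) =
        X ^ maj (u ++ [2]) + (X ^ (2 * b + (d + 1) + 2) - 1) * X ^ maj u := by
      intro u hu
      rw [maj_two_one, maj_two hu, len_of_mem hu, pow_add]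
      ring
    rw [Finset.sum_congr rfl h1, Finset.sum_add_distrib]
    simp only [maj_one_one]
    ring

theorem S_rec_zero (b : ℕ) : S (b + 1) 0 = S b 1 := by
  rw [S, sum_W_succ_zero, S]
  exact Finset.sum_congr rfl fun u hu => by rw [maj_two hu]

theorem S_rec (b d : ℕ) : S (b + 1) (d + 1) =
    S (b + 1) d + (X ^ (2 * b + d + 2) - 1) * S b (d + 1) + S b (d + 2) := by
  rw [S, sum_W_succ, S_step]
  congr 1
  exact Finset.sum_congr rfl fun u hu => by rw [maj_two hu]

theorem G_symm : ∀ a b : ℕ, G a b = G b a := by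
  intro a
  induction a with
  | zero => intro b; rw [G_zero_left, G_zero_right]
  | succ a iha =>
    intro b
    induction b with
    | zero => rw [G_zero_left, G_zero_right]
    | succ b ihb => rw [G_one a b, G_two b a, iha (b + 1), ihb]; ring

theorem S_closed : ∀ b d : ℕ, S b d = G (b + d) b - X * H (b + d) b := by
  intro b
  induction b with
  | zero => intro d; rw [S_zero, H, G_zero_right]; ring
  | succ b ihb =>
    intro d
    induction d with
    | zero =>
      rw [S_rec_zero, ihb 1]
      show G (b + 1) b - X * H (b + 1) b = G (b + 1) (b + 1) - X * G (b + 2) b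
      cases b with
      | zero =>
        have e1 := G_two 0 0
        rw [H, G_zero_right, G_zero_right, e1, G_zero_left, G_zero_right]
        ring
      | succ b =>
        show G (b + 2) (b + 1) - X * G (b + 3) b = G (b + 2) (b + 2) - X * G (b + 3) (b + 1)
        have e1 := G_two (b + 1) (b + 1)
        have e2 := G_two (b + 2) b
        have e3 := G_symm (b + 1) (b + 2)
        rw [e3] at e1
        linear_combination (-1 : ℤ[X]) * e1 + (X : ℤ[X]) * e2
    | succ d ih =>
      rw [S_rec, ih, ihb (d + 1), ihb (d + 2)]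
      obtain ⟨n, hn⟩ : ∃ n, n = b + d + 1 := ⟨_, rfl⟩
      rw [show b + 1 + d = n by omega, show b + 1 + (d + 1) = n + 1 by omega,
        show b + (d + 1) = n by omega, show b + (d + 2) = n + 1 by omega,
        show 2 * b + d + 2 = n + b + 1 by omega]
      clear hn ih ihb
      cases b with
      | zero =>
        have g := G_rec n 0
        have e1 : H n (0 + 1) = 1 := G_zero_right _
        have e2 : H (n + 1) (0 + 1) = 1 := G_zero_right _
        have e3 : H n 0 = 0 := rfl
        have e4 : H (n + 1) 0 = 0 := rfl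
        rw [e1, e2, e3, e4]
        linear_combination (-1 : ℤ[X]) * g
      | succ b =>
        have g1 := G_rec n (b + 1)
        have g2 := G_rec (n + 1) b
        show G n (b + 1 + 1) - X * G (n + 1) (b + 1) + (X ^ (n + (b + 1) + 1) - 1) *
            (G n (b + 1) - X * G (n + 1) b) + (G (n + 1) (b + 1) - X * G (n + 1 + 1) b) =
          G (n + 1) (b + 1 + 1) - X * G (n + 1 + 1) (b + 1)
        linear_combination (-1 : ℤ[X]) * g1 + (X : ℤ[X]) * g2

/-! ## partial linear extensions -/

/-- partial linear extensions with `b + d` even letters and `b` odd letters -/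
def V (s : ℕ) : ℕ → ℕ → Finset (List ℕ)
  | 0, 0 => {[]}
  | 0, d + 1 => (V s 0 d).image (· ++ [2 * (s - (0 + d))])
  | b + 1, 0 => (V s b 1).image (· ++ [2 * (s - b) - 1])
  | b + 1, d + 1 => (V s (b + 1) d).image (· ++ [2 * (s - (b + 1 + d))]) ∪
      (V s b (d + 2)).image (· ++ [2 * (s - b) - 1])
termination_by b d => (b, d)

theorem last_V {s b d : ℕ} {u : List ℕ} (h : u ∈ V s b d) :
    (u = [] ∧ b = 0 ∧ d = 0) ∨
    (∃ v d', d = d' + 1 ∧ v ∈ V s b d' ∧ u = v ++ [2 * (s - (b + d'))]) ∨
    (∃ v b', b = b' + 1 ∧ v ∈ V s b' (d + 1) ∧ u = v ++ [2 * (s - b') - 1]) := by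
  rcases b with _ | b <;> rcases d with _ | d
  · rw [V] at h
    left; exact ⟨Finset.mem_singleton.1 h, rfl, rfl⟩
  · rw [V] at h
    obtain ⟨v, hv, rfl⟩ := Finset.mem_image.1 h
    right; left; exact ⟨v, d, rfl, hv, rfl⟩
  · rw [V] at h
    obtain ⟨v, hv, rfl⟩ := Finset.mem_image.1 h
    right; right; exact ⟨v, b, rfl, hv, rfl⟩
  · rw [V] at h
    rcases Finset.mem_union.1 h with h | h
    · obtain ⟨v, hv, rfl⟩ := Finset.mem_image.1 h
      right; left; exact ⟨v, d, rfl, hv, rfl⟩
    · obtain ⟨v, hv, rfl⟩ := Finset.mem_image.1 h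
      right; right; exact ⟨v, b, rfl, hv, rfl⟩

theorem V_even {s b d : ℕ} {u : List ℕ} (h : u ∈ V s b d) :
    u ++ [2 * (s - (b + d))] ∈ V s b (d + 1) := by
  rcases b with _ | b
  · rw [V]; exact Finset.mem_image.2 ⟨u, h, rfl⟩
  · rw [V]; exact Finset.mem_union_left _ (Finset.mem_image.2 ⟨u, h, rfl⟩)

theorem V_odd {s b d : ℕ} {u : List ℕ} (h : u ∈ V s b (d + 1)) :
    u ++ [2 * (s - b) - 1] ∈ V s (b + 1) d := by
  rcases d with _ | d
  · rw [V]; exact Finset.mem_image.2 ⟨u, h, rfl⟩
  · rw [V]; exact Finset.mem_union_right _ (Finset.mem_image.2 ⟨u, h, rfl⟩)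

theorem len_V (s : ℕ) : ∀ n b d : ℕ, 2 * b + d = n → ∀ u ∈ V s b d, u.length = 2 * b + d := by
  intro n
  induction n with
  | zero =>
    intro b d h u hu
    obtain rfl : b = 0 := by omega
    obtain rfl : d = 0 := by omega
    rw [V] at hu
    rw [Finset.mem_singleton.1 hu]; rfl
  | succ n ih =>
    intro b d h u hu
    rcases last_V hu with ⟨rfl, rfl, rfl⟩ | ⟨v, d', rfl, hv, rfl⟩ | ⟨v, b', rfl, hv, rfl⟩
    · rfl
    · rw [List.length_append, ih b d' (by omega) v hv]; simp; omega
    · rw [List.length_append, ih b' (d + 1) (by omega) v hv]; simp; omega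

theorem sum_V_zero {R : Type} [AddCommMonoid R] (s d : ℕ) (f : List ℕ → R) :
    ∑ l ∈ V s 0 (d + 1), f l = ∑ l ∈ V s 0 d, f (l ++ [2 * (s - (0 + d))]) := by
  rw [V, Finset.sum_image fun a _ b _ h => snoc_inj _ h]

theorem sum_V_succ_zero {R : Type} [AddCommMonoid R] (s b : ℕ) (f : List ℕ → R) :
    ∑ l ∈ V s (b + 1) 0, f l = ∑ l ∈ V s b 1, f (l ++ [2 * (s - b) - 1]) := by
  rw [V, Finset.sum_image fun a _ b _ h => snoc_inj _ h]

theorem sum_V_succ {R : Type} [AddCommMonoid R] (s b d : ℕ) (hb : b < s) (f : List ℕ → R) :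
    ∑ l ∈ V s (b + 1) (d + 1), f l = ∑ l ∈ V s (b + 1) d, f (l ++ [2 * (s - (b + 1 + d))]) +
      ∑ l ∈ V s b (d + 2), f (l ++ [2 * (s - b) - 1]) := by
  rw [V, Finset.sum_union, Finset.sum_image fun a _ b _ h => snoc_inj _ h,
    Finset.sum_image fun a _ b _ h => snoc_inj _ h]
  rw [Finset.disjoint_left]
  intro l h1 h2
  obtain ⟨u, -, rfl⟩ := Finset.mem_image.1 h1
  obtain ⟨v, -, hv⟩ := Finset.mem_image.1 h2
  have := congrArg List.getLast? hv
  simp at this
  omega

theorem maj_even {s b d : ℕ} {u : List ℕ} (hu : u ∈ V s b d) (h : b + d + 1 ≤ s) :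
    maj (u ++ [2 * (s - (b + d))]) = maj u + (2 * b + d) := by
  rcases last_V hu with ⟨rfl, rfl, rfl⟩ | ⟨v, d', rfl, hv, rfl⟩ | ⟨v, b', rfl, hv, rfl⟩
  · simp [maj, majFrom]
  · rw [maj_snoc, if_pos (by omega), len_V s _ _ _ rfl v hv]; omega
  · rw [maj_snoc, if_pos (by omega), len_V s _ _ _ rfl v hv]; omega

theorem maj_odd_even {s b d : ℕ} {v : List ℕ} (hv : v ∈ V s b d) (h : b + d + 1 ≤ s) :
    maj (v ++ [2 * (s - (b + d))] ++ [2 * (s - b) - 1]) =
      maj (v ++ [2 * (s - (b + d))]) + (if d = 0 then 2 * b + 1 else 0) := by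
  rw [maj_snoc, len_V s _ _ _ rfl v hv]
  split_ifs <;> omega

theorem maj_odd_odd {s b d : ℕ} {v : List ℕ} (hv : v ∈ V s b (d + 1)) (h : b + 1 ≤ s) :
    maj (v ++ [2 * (s - b) - 1] ++ [2 * (s - (b + 1)) - 1]) =
      maj (v ++ [2 * (s - b) - 1]) + (2 * b + d + 2) := by
  rw [maj_snoc, len_V s _ _ _ rfl v hv, if_pos (by omega)]
  omega

/-- sum of `q ^ maj` over partial linear extensions -/
noncomputable def T (s b d : ℕ) : ℤ[X] := ∑ l ∈ V s b d, X ^ maj l

theorem T_zero {s d : ℕ} (h : d + 1 ≤ s) : T s 0 (d + 1) = X ^ d * T s 0 d := by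
  rw [T, sum_V_zero, T, Finset.mul_sum]
  refine Finset.sum_congr rfl fun u hu => ?_
  rw [maj_even hu (by omega), ← pow_add]
  congr 1; omega

theorem T_succ_zero {s b : ℕ} (h : b + 1 ≤ s) : T s (b + 1) 0 = X ^ (2 * b + 1) * T s b 1 := by
  rw [T, sum_V_succ_zero, T, Finset.mul_sum]
  refine Finset.sum_congr rfl fun u hu => ?_
  rw [← pow_add]
  congr 1
  rcases last_V hu with ⟨-, -, h0⟩ | ⟨v, d', hd, hv, rfl⟩ | ⟨v, b', rfl, hv, rfl⟩
  · omega
  · obtain rfl : d' = 0 := by omega
    rw [maj_odd_even hv (by omega), if_pos rfl]; omega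
  · rw [maj_odd_odd hv (by omega)]; omega

theorem T_even {s b d : ℕ} (h : b + d + 1 ≤ s) :
    ∑ u ∈ V s b d, (X : ℤ[X]) ^ maj (u ++ [2 * (s - (b + d))]) = X ^ (2 * b + d) * T s b d := by
  rw [T, Finset.mul_sum]
  refine Finset.sum_congr rfl fun u hu => ?_
  rw [maj_even hu h, ← pow_add]
  congr 1; omega

theorem T_odd {s b d : ℕ} (h : b + (d + 2) ≤ s) :
    ∑ u ∈ V s b (d + 2), (X : ℤ[X]) ^ maj (u ++ [2 * (s - b) - 1]) =
      X ^ (2 * b + d + 2) * T s b (d + 2) +
        (1 - X ^ (2 * b + d + 2)) * (X ^ (2 * b + d + 1) * T s b (d + 1)) := by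
  cases b with
  | zero =>
    have h1 : ∑ u ∈ V s 0 (d + 2), (X : ℤ[X]) ^ maj (u ++ [2 * (s - 0) - 1]) = T s 0 (d + 2) := by
      rw [T, sum_V_zero s (d + 1), sum_V_zero s (d + 1)]
      refine Finset.sum_congr rfl fun v hv => ?_
      rw [maj_odd_even hv (by omega), if_neg (by omega), add_zero]
    rw [h1]
    have h2 := T_zero (s := s) (d := d + 1) (by omega)
    rw [show 2 * 0 + d + 1 = d + 1 by omega, ← h2]
    ring
  | succ b =>
    have hA := T_even (s := s) (b := b + 1) (d := d + 1) (by omega)
    have h1 : T s (b + 1) (d + 2) =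
        ∑ u ∈ V s (b + 1) (d + 1), (X : ℤ[X]) ^ maj (u ++ [2 * (s - (b + 1 + (d + 1)))]) +
        ∑ u ∈ V s b (d + 3), (X : ℤ[X]) ^ maj (u ++ [2 * (s - b) - 1]) := by
      rw [T, sum_V_succ s b (d + 1) (by omega)]
    have h2 : ∑ u ∈ V s (b + 1) (d + 2), (X : ℤ[X]) ^ maj (u ++ [2 * (s - (b + 1)) - 1]) =
        ∑ u ∈ V s (b + 1) (d + 1), (X : ℤ[X]) ^ maj (u ++ [2 * (s - (b + 1 + (d + 1)))]) +
        X ^ (2 * (b + 1) + d + 2) *
          ∑ u ∈ V s b (d + 3), (X : ℤ[X]) ^ maj (u ++ [2 * (s - b) - 1]) := by
      rw [sum_V_succ s b (d + 1) (by omega), Finset.mul_sum]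
      congr 1
      · refine Finset.sum_congr rfl fun v hv => ?_
        rw [maj_odd_even hv (by omega), if_neg (by omega), add_zero]
      · refine Finset.sum_congr rfl fun v hv => ?_
        rw [maj_odd_odd hv (by omega), ← pow_add]
        congr 1; omega
    rw [h2, h1, hA]
    ring

theorem T_succ {s b d : ℕ} (h : b + 1 + (d + 1) ≤ s) : T s (b + 1) (d + 1) =
    X ^ (2 * b + d + 2) * T s (b + 1) d + (X ^ (2 * b + d + 2) * T s b (d + 2) +
      (1 - X ^ (2 * b + d + 2)) * (X ^ (2 * b + d + 1) * T s b (d + 1))) := by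
  rw [T, sum_V_succ s b d (by omega), T_even (by omega), T_odd (by omega)]
  rw [show 2 * (b + 1) + d = 2 * b + d + 2 by omega]

theorem G_key (a b : ℕ) : G (a + 1) (b + 1) = X ^ (b + 1) * G a (b + 1) +
    X ^ (a + 1) * G (a + 1) b + (1 - X ^ (a + b + 1)) * G a b := by
  have h1 := G_two a b
  have h2 := G_abs_left a b
  linear_combination h1 - h2

/-- triangular numbers `n (n - 1) / 2` -/
def tri : ℕ → ℕ
  | 0 => 0
  | n + 1 => tri n + n

theorem T_closed (s : ℕ) : ∀ b d : ℕ, b + d ≤ s →
    T s b d = X ^ (tri (b + d) + tri b) * (G (b + d) b - X ^ d * H (b + d) b) := by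
  intro b
  induction b with
  | zero =>
    intro d
    induction d with
    | zero =>
      intro _
      rw [T, V, Finset.sum_singleton]
      simp [maj, majFrom, tri, G_zero_left, H]
    | succ d ih =>
      intro h
      rw [T_zero (by omega), ih (by omega)]
      have e1 : H (0 + d) 0 = 0 := rfl
      have e2 : H (0 + (d + 1)) 0 = 0 := rfl
      rw [e1, e2, G_zero_right, G_zero_right]
      rw [show 0 + (d + 1) = d + 1 by omega, show 0 + d = d by omega,
        show tri (d + 1) = tri d + d from rfl]
      ring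
  | succ b ihb =>
    intro d
    induction d with
    | zero =>
      intro h
      rw [T_succ_zero (by omega), ihb 1 (by omega)]
      show X ^ (2 * b + 1) * (X ^ (tri b + b + tri b) * (G (b + 1) b - X ^ 1 * H (b + 1) b)) =
        X ^ (tri b + b + (tri b + b)) * (G (b + 1) (b + 1) - X ^ 0 * G (b + 2) b)
      cases b with
      | zero =>
        have e1 := G_two 0 0
        rw [H, G_zero_right, G_zero_right, e1, G_zero_left, G_zero_right]
        ring
      | succ b =>
        show X ^ (2 * (b + 1) + 1) * (X ^ (tri (b + 1) + (b + 1) + tri (b + 1)) *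
            (G (b + 2) (b + 1) - X ^ 1 * G (b + 3) b)) =
          X ^ (tri (b + 1) + (b + 1) + (tri (b + 1) + (b + 1))) *
            (G (b + 2) (b + 2) - X ^ 0 * G (b + 3) (b + 1))
        have e1 := G_one (b + 1) (b + 1)
        have e2 := G_one (b + 2) b
        have e3 := G_symm (b + 1) (b + 2)
        rw [e3] at e1
        rw [e1, e2]
        ring
    | succ d ih =>
      intro h
      rw [T_succ h, ih (by omega), ihb (d + 1) (by omega), ihb (d + 2) (by omega)]
      obtain ⟨n, hn⟩ : ∃ n, n = b + d + 1 := ⟨_, rfl⟩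
      rw [show b + 1 + d = n by omega, show b + 1 + (d + 1) = n + 1 by omega,
        show b + (d + 1) = n by omega, show b + (d + 2) = n + 1 by omega,
        show 2 * b + d + 2 = n + b + 1 by omega, show 2 * b + d + 1 = n + b by omega,
        show tri (n + 1) = tri n + (b + d + 1) by rw [tri, hn], show tri (b + 1) = tri b + b by rw [tri]]
      subst hn
      cases b with
      | zero =>
        have g := G_key (0 + d + 1) 0
        have e1 : H (0 + d + 1) (0 + 1) = 1 := G_zero_right _
        have e2 : H (0 + d + 1 + 1) (0 + 1) = 1 := G_zero_right _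
        have e3 : H (0 + d + 1) 0 = 0 := rfl
        have e4 : H (0 + d + 1 + 1) 0 = 0 := rfl
        rw [e1, e2, e3, e4, g]
        rw [G_zero_right, G_zero_right]
        ring
      | succ b =>
        have g1 := G_key (b + 1 + d + 1) (b + 1)
        have g2 := G_key (b + 1 + d + 1 + 1) b
        have e1 : ∀ a c : ℕ, H a (c + 1) = G (a + 1) c := fun _ _ => rfl
        rw [e1, e1, e1, e1, g1, g2]
        ring

theorem T_eq_S (s : ℕ) (hs : 1 ≤ s) : T s s 0 = X ^ (s ^ 2) * S s 0 := by
  obtain ⟨t, rfl⟩ : ∃ t, s = t + 1 := ⟨s - 1, by omega⟩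
  rw [T_closed (t + 1) (t + 1) 0 le_rfl, S_closed]
  show X ^ (tri (t + 1) + tri (t + 1)) * (G (t + 1) (t + 1) - X ^ 0 * G (t + 2) t) =
    X ^ ((t + 1) ^ 2) * (G (t + 1) (t + 1) - X * G (t + 2) t)
  have ht : ∀ n, tri (n + 1) + tri (n + 1) + (n + 1) = (n + 1) ^ 2 := by
    intro n
    induction n with
    | zero => rfl
    | succ n ih =>
      have : tri (n + 1 + 1) = tri (n + 1) + (n + 1) := rfl
      rw [this]; nlinarith
  rw [← ht t]
  have e1 := G_abs_left (t + 1) t
  have e2 := G_abs_right (t + 1) t
  rw [pow_add _ _ (t + 1)]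
  linear_combination (X : ℤ[X]) ^ (tri (t + 1) + tri (t + 1)) * (e1 - e2)

/-! ## the Catalan words -/

theorem catQ_eq (n : ℕ) : catQ n = S n 0 := by
  classical
  rw [catQ, S]
  refine Finset.sum_congr ?_ fun _ _ => rfl
  ext l
  simp only [Finset.mem_filter, List.mem_toFinset, List.mem_permutations, IsCatalan, mem_W]
  constructor
  · rintro ⟨h, -, h'⟩
    refine ⟨?_, ?_, ?_, h'⟩
    · rw [h.count_eq]; simp [List.count_replicate]
    · rw [h.count_eq]; simp [List.count_replicate]
    · intro x hx
      have := h.mem_iff.1 hx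
      rcases List.mem_append.1 this with h1 | h1
      · left; exact (List.mem_replicate.1 h1).2
      · right; exact (List.mem_replicate.1 h1).2
  · rintro ⟨h1, h2, h3, h4⟩
    have h : l.Perm (List.replicate n 1 ++ List.replicate n 2) := by
      rw [List.perm_iff_count]
      intro a
      by_cases ha1 : a = 1
      · subst ha1; rw [h1]; simp [List.count_replicate]
      · by_cases ha2 : a = 2
        · subst ha2; rw [h2]; simp [List.count_replicate]
        · have : a ∉ l := fun hm => by rcases h3 a hm with h | h <;> omega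
          rw [List.count_eq_zero_of_not_mem this, List.count_append, List.count_replicate,
            List.count_replicate]
          simp [Ne.symm ha1, Ne.symm ha2]
    exact ⟨h, h, h4⟩

/-! ## the linear extensions -/

/-- the even letters -/
def ev (l : List ℕ) : List ℕ := l.filter (fun x => x % 2 = 0)

/-- the odd letters -/
def od (l : List ℕ) : List ℕ := l.filter (fun x => x % 2 = 1)

/-- `2 s, 2 s - 2, ...` (`n` terms) -/
def evs (s : ℕ) : ℕ → List ℕ
  | 0 => []
  | n + 1 => evs s n ++ [2 * (s - n)]

/-- `2 s - 1, 2 s - 3, ...` (`n` terms) -/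
def ods (s : ℕ) : ℕ → List ℕ
  | 0 => []
  | n + 1 => ods s n ++ [2 * (s - n) - 1]

theorem ev_even (u : List ℕ) {x : ℕ} (h : x % 2 = 0) : ev (u ++ [x]) = ev u ++ [x] := by
  simp [ev, List.filter_append, h]

theorem ev_odd (u : List ℕ) {x : ℕ} (h : x % 2 = 1) : ev (u ++ [x]) = ev u := by
  simp [ev, List.filter_append, h]

theorem od_odd (u : List ℕ) {x : ℕ} (h : x % 2 = 1) : od (u ++ [x]) = od u ++ [x] := by
  simp [od, List.filter_append, h]

theorem od_even (u : List ℕ) {x : ℕ} (h : x % 2 = 0) : od (u ++ [x]) = od u := by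
  simp [od, List.filter_append, h]

theorem evs_length (s n : ℕ) : (evs s n).length = n := by
  induction n with
  | zero => rfl
  | succ n ih => rw [evs, List.length_append, ih]; rfl

theorem ods_length (s n : ℕ) : (ods s n).length = n := by
  induction n with
  | zero => rfl
  | succ n ih => rw [ods, List.length_append, ih]; rfl

theorem take_key (P : List ℕ → Prop) (l : List ℕ) (x : ℕ) :
    (∀ k, P ((l ++ [x]).take k)) ↔ ((∀ k, P (l.take k)) ∧ P (l ++ [x])) := by
  constructor
  · intro h
    refine ⟨fun k => ?_, ?_⟩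
    · rcases le_total k l.length with hk | hk
      · have := h k
        rwa [List.take_append_of_le_length hk] at this
      · have := h l.length
        rw [List.take_append_of_le_length le_rfl, List.take_length] at this
        rwa [List.take_of_length_le hk]
    · have := h (l ++ [x]).length
      rwa [List.take_length] at this
  · rintro ⟨h, h'⟩ k
    rcases le_or_gt k l.length with hk | hk
    · rw [List.take_append_of_le_length hk]; exact h k
    · rw [List.take_of_length_le (by simp; omega)]; exact h'

/-- the ballot condition -/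
def Bal (l : List ℕ) : Prop := (od l).length ≤ (ev l).length

/-- the characterisation of the partial linear extensions -/
def Q (s b d : ℕ) (l : List ℕ) : Prop :=
  ev l = evs s (b + d) ∧ od l = ods s b ∧ ∀ k, Bal (l.take k)

theorem V_mem (s : ℕ) : ∀ n b d : ℕ, 2 * b + d = n → b + d ≤ s → ∀ l, l ∈ V s b d ↔ Q s b d l := by
  intro n
  induction n with
  | zero =>
    intro b d h _ l
    obtain rfl : b = 0 := by omega
    obtain rfl : d = 0 := by omega
    rw [V, Finset.mem_singleton]
    constructor
    · rintro rfl; exact ⟨rfl, rfl, fun k => by simp [Bal, ev, od]⟩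
    · rintro ⟨h1, h2, -⟩
      cases l with
      | nil => rfl
      | cons a l =>
        exfalso
        rcases Nat.mod_two_eq_zero_or_one a with ha | ha
        · simp [ev, evs, ha] at h1
        · simp [od, ods, ha] at h2
  | succ n ih =>
    intro b d h hs l
    constructor
    · intro hl
      rcases last_V hl with ⟨rfl, rfl, rfl⟩ | ⟨v, d', rfl, hv, rfl⟩ | ⟨v, b', rfl, hv, rfl⟩
      · omega
      · obtain ⟨h1, h2, h3⟩ := (ih b d' (by omega) (by omega) v).1 hv
        have he : (2 * (s - (b + d'))) % 2 = 0 := by omega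
        refine ⟨?_, ?_, ?_⟩
        · rw [ev_even _ he, h1]; rfl
        · rw [od_even _ he, h2]
        · rw [take_key Bal]
          refine ⟨h3, ?_⟩
          rw [Bal, ev_even _ he, od_even _ he, h1, h2, List.length_append, evs_length, ods_length]
          simp; omega
      · obtain ⟨h1, h2, h3⟩ := (ih b' (d + 1) (by omega) (by omega) v).1 hv
        have ho : (2 * (s - b') - 1) % 2 = 1 := by omega
        refine ⟨?_, ?_, ?_⟩
        · rw [ev_odd _ ho, h1]; congr 1; omega
        · rw [od_odd _ ho, h2]; rfl
        · rw [take_key Bal]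
          refine ⟨h3, ?_⟩
          rw [Bal, ev_odd _ ho, od_odd _ ho, h1, h2, List.length_append, evs_length, ods_length]
          simp
    · rintro ⟨h1, h2, h3⟩
      rcases List.eq_nil_or_concat l with rfl | ⟨u, x, rfl⟩
      · exfalso
        have e1 := congrArg List.length h1
        rw [evs_length] at e1
        simp [ev] at e1
        omega
      · rw [List.concat_eq_append] at h1 h2 h3 ⊢
        have h4 := (take_key Bal u x).1 h3
        have h5 := h4.1 u.length
        rw [List.take_length, Bal] at h5
        rcases Nat.mod_two_eq_zero_or_one x with hx | hx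
        · rw [ev_even _ hx] at h1
          rw [od_even _ hx] at h2
          have e1 := congrArg List.length h1
          have e2 := congrArg List.length h2
          rw [List.length_append, evs_length, List.length_singleton] at e1
          rw [ods_length] at e2
          cases d with
          | zero => exfalso; omega
          | succ d =>
            have h6 : ev u ++ [x] = evs s (b + d) ++ [2 * (s - (b + d))] := h1
            obtain ⟨h7, h8⟩ := List.append_inj' h6 rfl
            have h9 : x = 2 * (s - (b + d)) := by simpa using h8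
            rw [h9]
            exact V_even ((ih b d (by omega) (by omega) u).2 ⟨h7, h2, h4.1⟩)
        · rw [ev_odd _ hx] at h1
          rw [od_odd _ hx] at h2
          cases b with
          | zero => exfalso; simp [ods] at h2
          | succ b =>
            have h6 : od u ++ [x] = ods s b ++ [2 * (s - b) - 1] := h2
            obtain ⟨h7, h8⟩ := List.append_inj' h6 rfl
            have h9 : x = 2 * (s - b) - 1 := by simpa using h8
            rw [h9]
            refine V_odd ((ih b (d + 1) (by omega) (by omega) u).2 ⟨?_, h7, h4.1⟩)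
            rw [h1]; congr 1; omega

theorem mem_evs (s x : ℕ) : ∀ n, x ∈ evs s n ↔ ∃ i < n, x = 2 * (s - i) := by
  intro n
  induction n with
  | zero => simp [evs]
  | succ n ih =>
    rw [evs, List.mem_append, ih, List.mem_singleton]
    constructor
    · rintro (⟨i, hi, rfl⟩ | rfl)
      · exact ⟨i, by omega, rfl⟩
      · exact ⟨n, by omega, rfl⟩
    · rintro ⟨i, hi, rfl⟩
      rcases Nat.lt_succ_iff_lt_or_eq.1 hi with h | rfl
      · left; exact ⟨i, h, rfl⟩
      · right; rfl

theorem mem_ods (s x : ℕ) : ∀ n, x ∈ ods s n ↔ ∃ i < n, x = 2 * (s - i) - 1 := by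
  intro n
  induction n with
  | zero => simp [ods]
  | succ n ih =>
    rw [ods, List.mem_append, ih, List.mem_singleton]
    constructor
    · rintro (⟨i, hi, rfl⟩ | rfl)
      · exact ⟨i, by omega, rfl⟩
      · exact ⟨n, by omega, rfl⟩
    · rintro ⟨i, hi, rfl⟩
      rcases Nat.lt_succ_iff_lt_or_eq.1 hi with h | rfl
      · left; exact ⟨i, h, rfl⟩
      · right; rfl

theorem evs_dec (s : ℕ) : ∀ n, n ≤ s → (evs s n).Pairwise (· > ·) := by
  intro n
  induction n with
  | zero => intro _; exact List.Pairwise.nil
  | succ n ih =>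
    intro h
    rw [evs, List.pairwise_append]
    refine ⟨ih (by omega), List.pairwise_singleton _ _, ?_⟩
    intro a ha b hb
    obtain ⟨i, hi, rfl⟩ := (mem_evs s a n).1 ha
    obtain rfl := List.mem_singleton.1 hb
    show 2 * (s - n) < 2 * (s - i)
    omega

theorem ods_dec (s : ℕ) : ∀ n, n ≤ s → (ods s n).Pairwise (· > ·) := by
  intro n
  induction n with
  | zero => intro _; exact List.Pairwise.nil
  | succ n ih =>
    intro h
    rw [ods, List.pairwise_append]
    refine ⟨ih (by omega), List.pairwise_singleton _ _, ?_⟩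
    intro a ha b hb
    obtain ⟨i, hi, rfl⟩ := (mem_ods s a n).1 ha
    obtain rfl := List.mem_singleton.1 hb
    show 2 * (s - n) - 1 < 2 * (s - i) - 1
    omega

theorem evs_succ (s : ℕ) : ∀ n, evs (s + 1) (n + 1) = 2 * (s + 1) :: evs s n := by
  intro n
  induction n with
  | zero => rfl
  | succ n ih => rw [evs, ih, evs, Nat.add_sub_add_right]; rfl

theorem ods_succ (s : ℕ) : ∀ n, ods (s + 1) (n + 1) = (2 * (s + 1) - 1) :: ods s n := by
  intro n
  induction n with
  | zero => rfl
  | succ n ih => rw [ods, ih, ods, Nat.add_sub_add_right]; rfl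

theorem perm_range (s : ℕ) : (evs s s ++ ods s s).Perm (List.range' 1 (s * 2)) := by
  induction s with
  | zero => exact List.Perm.refl _
  | succ s ih =>
    rw [evs_succ, ods_succ, show (s + 1) * 2 = s * 2 + 1 + 1 by ring, List.range'_concat,
      List.range'_concat]
    have h1 : (2 * (s + 1) :: evs s s ++ (2 * (s + 1) - 1) :: ods s s).Perm
        (2 * (s + 1) :: (2 * (s + 1) - 1) :: (evs s s ++ ods s s)) := by
      rw [List.cons_append]
      exact List.Perm.cons _ List.perm_middle
    refine h1.trans ?_
    rw [show 1 + 1 * (s * 2) = 2 * (s + 1) - 1 by omega,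
      show 1 + 1 * (s * 2 + 1) = 2 * (s + 1) by omega]
    have h2 : (List.range' 1 (s * 2) ++ [2 * (s + 1) - 1] ++ [2 * (s + 1)]).Perm
        (2 * (s + 1) :: (2 * (s + 1) - 1) :: List.range' 1 (s * 2)) := by
      refine (List.perm_append_singleton _ _).trans ?_
      exact List.Perm.cons _ (List.perm_append_singleton _ _)
    exact ((ih.cons _).cons _).trans h2.symm

theorem perm_ev_od (l : List ℕ) : (ev l ++ od l).Perm l := by
  have h := List.filter_append_perm (fun x => decide (x % 2 = 0)) l
  have h2 : od l = l.filter (fun x => !decide (x % 2 = 0)) := by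
    rw [od]
    refine List.filter_congr fun x _ => ?_
    rcases Nat.mod_two_eq_zero_or_one x with hx | hx <;> simp [hx]
  rw [h2, ev]
  exact h

theorem ev_evs (s n : ℕ) : ev (evs s n) = evs s n := by
  rw [ev, List.filter_eq_self]
  intro a ha
  obtain ⟨i, -, rfl⟩ := (mem_evs s a n).1 ha
  simp

theorem od_evs (s n : ℕ) : od (evs s n) = [] := by
  rw [od, List.filter_eq_nil_iff]
  intro a ha
  obtain ⟨i, -, rfl⟩ := (mem_evs s a n).1 ha
  simp

theorem od_ods (s n : ℕ) (h : n ≤ s) : od (ods s n) = ods s n := by
  rw [od, List.filter_eq_self]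
  intro a ha
  obtain ⟨i, hi, rfl⟩ := (mem_ods s a n).1 ha
  have : (2 * (s - i) - 1) % 2 = 1 := by omega
  simp [this]

theorem ev_ods (s n : ℕ) (h : n ≤ s) : ev (ods s n) = [] := by
  rw [ev, List.filter_eq_nil_iff]
  intro a ha
  obtain ⟨i, hi, rfl⟩ := (mem_ods s a n).1 ha
  have : (2 * (s - i) - 1) % 2 = 1 := by omega
  simp [this]

theorem take_evs (s : ℕ) : ∀ n m, m ≤ n → (evs s n).take m = evs s m := by
  intro n
  induction n with
  | zero => intro m h; obtain rfl : m = 0 := by omega
            rfl
  | succ n ih =>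
    intro m h
    rcases Nat.lt_or_eq_of_le h with h | rfl
    · rw [evs, List.take_append_of_le_length (by rw [evs_length]; omega)]
      exact ih m (by omega)
    · exact List.take_of_length_le (by rw [evs_length])

theorem take_ods (s : ℕ) : ∀ n m, m ≤ n → (ods s n).take m = ods s m := by
  intro n
  induction n with
  | zero => intro m h; obtain rfl : m = 0 := by omega
            rfl
  | succ n ih =>
    intro m h
    rcases Nat.lt_or_eq_of_le h with h | rfl
    · rw [ods, List.take_append_of_le_length (by rw [ods_length]; omega)]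
      exact ih m (by omega)
    · exact List.take_of_length_le (by rw [ods_length])

theorem mem_ev {l : List ℕ} {x : ℕ} : x ∈ ev l ↔ x ∈ l ∧ x % 2 = 0 := by
  simp [ev]

theorem mem_od {l : List ℕ} {x : ℕ} : x ∈ od l ↔ x ∈ l ∧ x % 2 = 1 := by
  simp [od]

theorem ne_of_Q {s : ℕ} {l : List ℕ} (h : Q s s 0 l) : IsNE123 s 2 l := by
  obtain ⟨h1, h2, h3⟩ := h
  rw [add_zero] at h1
  have hp : l.Perm (List.range' 1 (s * 2)) := by
    have := perm_ev_od l
    rw [h1, h2] at this
    exact this.symm.trans (perm_range s)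
  have hnd : l.Nodup := hp.nodup_iff.2 (List.nodup_range' 1)
  have hpos : ∀ i : Fin l.length, 1 ≤ l.get i := by
    intro i
    have := hp.mem_iff.1 (List.get_mem l i)
    exact (List.mem_range'_1.1 this).1
  have hE : (ev l).Pairwise (· > ·) := by rw [h1]; exact evs_dec s s le_rfl
  have hO : (od l).Pairwise (· > ·) := by rw [h2]; exact ods_dec s s le_rfl
  rw [ev, List.pairwise_filter, List.pairwise_iff_get] at hE
  rw [od, List.pairwise_filter, List.pairwise_iff_get] at hO
  have dec : ∀ i j : Fin l.length, i < j → l.get i % 2 = l.get j % 2 → l.get j < l.get i := by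
    intro i j hij he
    rcases Nat.mod_two_eq_zero_or_one (l.get i) with hx | hx
    · exact hE i j hij (by simpa using hx) (by rw [he] at hx; simpa using hx)
    · exact hO i j hij (by simpa using hx) (by rw [he] at hx; simpa using hx)
  have bal : ∀ i j : Fin l.length, i < j → l.get i % 2 = 1 → l.get j % 2 = 0 →
      l.get j < l.get i := by
    intro i j hij hi hj
    by_contra hge
    have hlen := h3 (i + 1)
    have hpre := List.take_prefix (i.1 + 1) l
    have hOp : od (l.take (i.1 + 1)) <+: ods s s := by rw [← h2]; exact hpre.filter _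
    have hEp : ev (l.take (i.1 + 1)) <+: evs s s := by rw [← h1]; exact hpre.filter _
    have hOl := hOp.length_le
    have hEl := hEp.length_le
    rw [ods_length] at hOl
    rw [evs_length] at hEl
    have hO' := List.prefix_iff_eq_take.1 hOp
    have hE' := List.prefix_iff_eq_take.1 hEp
    rw [take_ods s s _ hOl] at hO'
    rw [take_evs s s _ hEl] at hE'
    have hi' : l.get i ∈ od (l.take (i.1 + 1)) := by
      refine mem_od.2 ⟨?_, hi⟩
      rw [List.mem_take_iff_getElem]
      exact ⟨i.1, by have := i.2; omega, rfl⟩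
    rw [hO', mem_ods] at hi'
    obtain ⟨p, hp1, hp2⟩ := hi'
    have hj' : l.get j ∈ ev l := mem_ev.2 ⟨List.get_mem l j, hj⟩
    rw [h1, mem_evs] at hj'
    obtain ⟨q, hq1, hq2⟩ := hj'
    have hlen' : (od (l.take (i.1 + 1))).length ≤ (ev (l.take (i.1 + 1))).length := hlen
    have hq : q < (ev (l.take (i.1 + 1))).length := by omega
    have hj'' : l.get j ∈ ev (l.take (i.1 + 1)) := by
      rw [hE', mem_evs]
      exact ⟨q, hq, hq2⟩
    obtain ⟨hm, -⟩ := mem_ev.1 hj''
    rw [List.mem_take_iff_getElem] at hm
    obtain ⟨c, hc, hc'⟩ := hm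
    have hcl : c < l.length := by omega
    have : l.get ⟨c, hcl⟩ = l.get j := hc'
    have hcj := (hnd.get_inj_iff).1 this
    have hij' : i.1 < j.1 := hij
    rw [← hcj] at hij'
    simp only at hij'
    omega
  refine ⟨hp, ?_, ?_⟩
  · intro a b hab hB
    by_contra hlt
    have hba : b < a := lt_of_le_of_ne (not_lt.1 hlt) (Ne.symm hab)
    obtain ⟨hB1, hB2⟩ := hB
    have pa := hpos a
    have pb := hpos b
    rcases Nat.mod_two_eq_zero_or_one (l.get a) with hx | hx <;>
      rcases Nat.mod_two_eq_zero_or_one (l.get b) with hy | hy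
    · have := dec b a hba (by omega)
      omega
    · have := bal b a hba hy hx
      omega
    · omega
    · have := dec b a hba (by omega)
      omega
  · rintro a b c hab hbc ⟨h4, h5⟩
    have d1 := dec a b hab
    have d2 := dec b c hbc
    have d3 := dec a c (hab.trans hbc)
    omega

theorem Q_of_ne {s : ℕ} {l : List ℕ} (h : IsNE123 s 2 l) : Q s s 0 l := by
  obtain ⟨hp, hL, -⟩ := h
  have hnd : l.Nodup := hp.nodup_iff.2 (List.nodup_range' 1)
  have hmem : ∀ x, x ∈ l ↔ 1 ≤ x ∧ x ≤ 2 * s := by
    intro x
    rw [hp.mem_iff, List.mem_range'_1]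
    omega
  have dec : ∀ i j : Fin l.length, i < j → l.get i % 2 = l.get j % 2 → l.get j < l.get i := by
    intro i j hij he
    by_contra hge
    have hne : l.get i ≠ l.get j := fun h => hij.ne ((hnd.get_inj_iff).1 h)
    have := hL j i hij.ne' ⟨by omega, by
      have := ((hmem _).1 (List.get_mem l i)).1
      omega⟩
    exact absurd hij (not_lt.2 this.le)
  have hev : ev l = evs s s := by
    refine List.Perm.eq_of_pairwise (le := (· > ·)) ?_ ?_ (evs_dec s s le_rfl) ?_
    · intro a b _ _ h1 h2
      exact absurd h1 (not_lt.2 (le_of_lt h2))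
    · rw [ev, List.pairwise_filter, List.pairwise_iff_get]
      intro i j hij h1 h2
      simp only [decide_eq_true_eq] at h1 h2
      exact dec i j hij (by omega)
    · have e1 : (ev l).Perm (ev (List.range' 1 (s * 2))) := hp.filter _
      have e2 : (ev (evs s s ++ ods s s)).Perm (ev (List.range' 1 (s * 2))) :=
        (perm_range s).filter _
      have e3 : ev (evs s s ++ ods s s) = evs s s := by
        have : ev (evs s s ++ ods s s) = ev (evs s s) ++ ev (ods s s) := List.filter_append _ _
        rw [this, ev_evs, ev_ods s s le_rfl, List.append_nil]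
      rw [e3] at e2
      exact e1.trans e2.symm
  have hod : od l = ods s s := by
    refine List.Perm.eq_of_pairwise (le := (· > ·)) ?_ ?_ (ods_dec s s le_rfl) ?_
    · intro a b _ _ h1 h2
      exact absurd h1 (not_lt.2 (le_of_lt h2))
    · rw [od, List.pairwise_filter, List.pairwise_iff_get]
      intro i j hij h1 h2
      simp only [decide_eq_true_eq] at h1 h2
      exact dec i j hij (by omega)
    · have e1 : (od l).Perm (od (List.range' 1 (s * 2))) := hp.filter _
      have e2 : (od (evs s s ++ ods s s)).Perm (od (List.range' 1 (s * 2))) :=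
        (perm_range s).filter _
      have e3 : od (evs s s ++ ods s s) = ods s s := by
        have : od (evs s s ++ ods s s) = od (evs s s) ++ od (ods s s) := List.filter_append _ _
        rw [this, od_evs, od_ods s s le_rfl, List.nil_append]
      rw [e3] at e2
      exact e1.trans e2.symm
  refine ⟨by rw [hev, add_zero], hod, ?_⟩
  intro k
  have hinj : Function.Injective (fun x : ℕ => x + 1) := fun a b h => by simpa using h
  have hnd' : ((od (l.take k)).map (fun x => x + 1)).Nodup := by
    refine List.Nodup.map hinj ?_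
    exact (hnd.sublist (List.take_sublist k l)).filter _
  have hsub : (od (l.take k)).map (fun x => x + 1) ⊆ ev (l.take k) := by
    intro z hz
    obtain ⟨x, hx, rfl⟩ := List.mem_map.1 hz
    obtain ⟨hx1, hx2⟩ := mem_od.1 hx
    rw [List.mem_take_iff_getElem] at hx1
    obtain ⟨i, hi, hix⟩ := hx1
    have hil : i < l.length := by omega
    have hxl : x ∈ l := by rw [← hix]; exact List.getElem_mem _
    have hxb := (hmem x).1 hxl
    have hx1l : x + 1 ∈ l := (hmem (x + 1)).2 (by omega)
    obtain ⟨j, hj, hjx⟩ := List.mem_iff_getElem.1 hx1l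
    have hlt := hL ⟨j, hj⟩ ⟨i, hil⟩ (by
      intro h
      have h' : j = i := by simpa using h
      subst h'
      omega) (by
      show Below 2 (l[j]) (l[i])
      rw [hjx, hix]
      constructor <;> omega)
    have hji : j < i := hlt
    refine mem_ev.2 ⟨?_, by show (x + 1) % 2 = 0; omega⟩
    rw [List.mem_take_iff_getElem]
    exact ⟨j, by omega, hjx⟩
  have := (List.subperm_of_subset hnd' hsub).length_le
  rw [List.length_map] at this
  exact this

theorem NE_eq (s : ℕ) : NE s 2 = T s s 0 := by
  classical
  rw [NE, T]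
  refine Finset.sum_congr ?_ fun _ _ => rfl
  ext l
  simp only [Finset.mem_filter, List.mem_toFinset, List.mem_permutations]
  rw [V_mem s (2 * s + 0) s 0 rfl le_rfl]
  constructor
  · rintro ⟨-, h⟩; exact Q_of_ne h
  · intro h
    have := ne_of_Q h
    exact ⟨this.1, this⟩

/-- Q1 of MP_1fed52_co -/
theorem result : ∀ s : ℕ, 1 ≤ s → NE s 2 = X ^ (s ^ 2) * catQ s := by
  intro s hs
  rw [NE_eq, catQ_eq, T_eq_S s hs]

end Pool.Agent.Results.MP_1fed52_co.MajorIndex
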